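import Mathlib
import Pool.Agent.H817R5.EP.Stubs
import Pool.Agent.Helper601.Mertens

set_option autoImplicit false

open Finset

namespace Pool.Agent.H477R5.EP

open Pool.Agent.H817R5.EP

lemma exp_le_one_sub {x : ℝ} (h0 : 0 ≤ x) (h1 : x ≤ 1 / 2) : Real.exp (-(2 * x)) ≤ 1 - x := by
  have h2 : (0 : ℝ) < 1 - x := by linarith
  have h3 : x / (1 - x) ≤ 2 * x := by
    rw [div_le_iff₀ h2]
    nlinarith
  have h4 : 1 / (1 - x) ≤ Real.exp (2 * x) := by
    have h5 := Real.add_one_le_exp (x / (1 - x))
    have h6 : x / (1 - x) + 1 = 1 / (1 - x) := by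
      field_simp
      ring
    rw [h6] at h5
    exact h5.trans (Real.exp_le_exp.mpr h3)
  rw [Real.exp_neg]
  rw [inv_le_comm₀ (Real.exp_pos _) h2]
  rw [← one_div]
  exact h4

lemma V_ge (z : ℕ) : Real.exp (-(2 * ∑ p ∈ (Finset.Icc 1 z).filter Nat.Prime, (1 : ℝ) / p)) ≤
    V z := by
  unfold V primesTo
  rw [Finset.mul_sum, ← Finset.sum_neg_distrib, Real.exp_sum]
  apply Finset.prod_le_prod
  · intro i _
    exact (Real.exp_pos _).le
  · intro i hi
    have hp : i.Prime := (Finset.mem_filter.mp hi).2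
    have h2 : (2 : ℝ) ≤ i := by exact_mod_cast hp.two_le
    apply exp_le_one_sub
    · positivity
    · exact one_div_le_one_div_of_le (by norm_num) h2

theorem vlow : St_VLOW := by
  obtain ⟨C, hC⟩ := Pool.Agent.Helper601.Mertens.mertens_inv
  have hl2 : (0 : ℝ) < Real.log 2 := Real.log_pos (by norm_num)
  refine ⟨min (Real.exp (-(2 * C))) (1 / 2 * Real.log 2 ^ 2),
    lt_min (Real.exp_pos _) (by positivity), ?_⟩
  intro z hz
  have hlz : (0 : ℝ) < Real.log z := Real.log_pos (by exact_mod_cast (by omega : 1 < z))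
  rcases Nat.lt_or_ge z 3 with h3 | h3
  · have hz2 : z = 2 := by omega
    subst hz2
    have hV : V 2 = 1 / 2 := by
      have hp : primesTo 2 = {2} := by decide
      unfold V
      rw [hp]
      norm_num
    rw [hV]
    rw [div_le_iff₀ (by positivity)]
    refine (min_le_right _ _).trans ?_
    norm_num
  · have h4 := hC z h3
    have h5 := (abs_le.mp h4).2
    refine le_trans ?_ (V_ge z)
    rw [div_le_iff₀ (by positivity)]
    refine (min_le_left _ _).trans ?_
    have h6 : Real.log z ^ 2 = Real.exp (2 * Real.log (Real.log z)) := by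
      rw [two_mul, Real.exp_add, Real.exp_log hlz, pow_two]
    rw [h6, ← Real.exp_add]
    apply Real.exp_le_exp.mpr
    linarith

end Pool.Agent.H477R5.EP
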